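import Mathlib

namespace Pool.Agent.Results.MP_dc74b6_ag.TriangleEmbedded

open MvPolynomial

/-- A clutter on the vertex set `Fin n`: a family of nonempty subsets (edges), none of which
contains another one. -/
def IsClutter {n : ℕ} (C : Set (Finset (Fin n))) : Prop :=
  (∀ e ∈ C, e.Nonempty) ∧ ∀ e ∈ C, ∀ f ∈ C, e ⊆ f → e = f

/-- The edge ideal of a clutter `C`, generated by the monomials `∏ i ∈ e, x_i`, `e ∈ C`. -/
noncomputable def edgeIdeal (k : Type*) [Field k] {n : ℕ} (C : Set (Finset (Fin n))) :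
    Ideal (MvPolynomial (Fin n) k) :=
  Ideal.span ((fun e : Finset (Fin n) => ∏ i ∈ e, (X i : MvPolynomial (Fin n) k)) '' C)

/-- The substitution `x_i ↦ ∑_{j ≤ s} x_{i,j} t^j`, as a map from `k[x_1, ..., x_n]` to `S_s[t]`,
where `S_s = k[x_{i,j} : 1 ≤ i ≤ n, 0 ≤ j ≤ s]`. -/
noncomputable def jetSubst (k : Type*) [Field k] (n s : ℕ) :
    MvPolynomial (Fin n) k →ₐ[k] Polynomial (MvPolynomial (Fin n × Fin (s + 1)) k) :=
  aeval (fun i => ∑ j : Fin (s + 1), Polynomial.C (X (i, j)) * Polynomial.X ^ (j : ℕ))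

/-- The `s`-jet ideal `J_s(I)`, generated by the coefficients `f^(j)` of `t^j` (`0 ≤ j ≤ s`) in
`f(∑ x_{1,j} t^j, ..., ∑ x_{n,j} t^j)` for `f ∈ I`. -/
noncomputable def jetIdeal {k : Type*} [Field k] {n : ℕ} (I : Ideal (MvPolynomial (Fin n) k))
    (s : ℕ) : Ideal (MvPolynomial (Fin n × Fin (s + 1)) k) :=
  Ideal.span {g | ∃ f ∈ I, ∃ j ≤ s, g = (jetSubst k n s f).coeff j}

section general

variable {k : Type*} [Field k] {σ : Type*} [Fintype σ] [DecidableEq σ]

/-- setting the variables in `T` to zero -/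
noncomputable def rho (k : Type*) [Field k] {σ : Type*} [DecidableEq σ] (T : Finset σ) :
    MvPolynomial σ k →ₐ[k] MvPolynomial σ k :=
  aeval (fun i => if i ∈ T then (0 : MvPolynomial σ k) else X i)

lemma rho_monomial (T : Finset σ) (m : σ →₀ ℕ) (c : k)
    [Decidable (∃ i ∈ T, m i ≠ 0)] :
    rho k T (monomial m c) = if (∃ i ∈ T, m i ≠ 0) then 0 else monomial m c := by
  classical
  unfold rho
  rw [aeval_monomial]
  split_ifs with h
  · obtain ⟨i, hi, him⟩ := h
    rw [Finsupp.prod, Finset.prod_eq_zero (Finsupp.mem_support_iff.mpr him), mul_zero]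
    rw [if_pos hi, zero_pow him]
  · push Not at h
    rw [monomial_eq]
    congr 1
    apply Finsupp.prod_congr
    intro i hi
    rw [if_neg]
    intro hiT
    exact (Finsupp.mem_support_iff.mp hi) (h i hiT)

lemma rho_eq_zero (T : Finset σ) (r : MvPolynomial σ k) (h : rho k T r = 0) :
    r ∈ Ideal.span ((X : σ → MvPolynomial σ k) '' (T : Set σ)) := by
  classical
  have h1 : rho k T r = ∑ m ∈ r.support.filter (fun m => ¬ ∃ i ∈ T, m i ≠ 0),
      monomial m (coeff m r) := by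
    conv_lhs => rw [r.as_sum, map_sum]
    rw [Finset.sum_filter]
    apply Finset.sum_congr rfl
    intro m _
    rw [rho_monomial]
    by_cases h : ∃ i ∈ T, m i ≠ 0
    · rw [if_pos h, if_neg (not_not.mpr h)]
    · rw [if_neg h, if_pos h]
  rw [mem_ideal_span_X_image]
  intro m hm
  by_contra hcon
  have h2 : coeff m (rho k T r) = coeff m r := by
    rw [h1, coeff_sum]
    simp only [coeff_monomial]
    rw [Finset.sum_ite_eq', if_pos (Finset.mem_filter.mpr ⟨hm, ?_⟩)]
    rintro ⟨i, hi, him⟩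
    exact hcon ⟨i, hi, him⟩
  rw [h, coeff_zero] at h2
  exact (mem_support_iff.mp hm) h2.symm

/-- Criterion: an ideal `J`, an element `f` killed by the variables in `T` modulo `J`, and a ring
homomorphism `ψ` to `S[ε]` sending `J` into `(ε^(m+1))`, `f` to `u ε^m` with `u ≠ 0`, and
specialising to `rho` at `ε = 0`. Then `(J : f)` is the prime generated by the variables in `T`. -/
lemma colon_eq (J : Ideal (MvPolynomial σ k)) (f : MvPolynomial σ k) (T : Finset σ)
    (hT : ∀ v ∈ T, X v * f ∈ J) (m : ℕ)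
    (ψ : MvPolynomial σ k →+* Polynomial (MvPolynomial σ k))
    (hJ : J ≤ Ideal.comap ψ (Ideal.span {Polynomial.X ^ (m + 1)}))
    (u : MvPolynomial σ k) (hu : u ≠ 0) (hf : ψ f = Polynomial.C u * Polynomial.X ^ m)
    (h0 : ∀ r, (ψ r).coeff 0 = rho k T r) :
    Submodule.colon J ({f} : Set (MvPolynomial σ k)) = RingHom.ker (rho k T).toRingHom := by
  ext r
  rw [Submodule.mem_colon_singleton, RingHom.mem_ker, smul_eq_mul]
  change r * f ∈ J ↔ rho k T r = 0
  constructor
  · intro h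
    have h1 := hJ h
    rw [Ideal.mem_comap, Ideal.mem_span_singleton, map_mul, hf, ← mul_assoc, pow_succ',
      mul_comm Polynomial.X] at h1
    have h1' : (Polynomial.X : Polynomial (MvPolynomial σ k)) ^ m * Polynomial.X ∣
        Polynomial.X ^ m * (ψ r * Polynomial.C u) := by
      rwa [mul_comm (Polynomial.X ^ m) (ψ r * Polynomial.C u)]
    have h2 := (mul_dvd_mul_iff_left (pow_ne_zero m Polynomial.X_ne_zero)).mp h1'
    rw [Polynomial.X_dvd_iff, Polynomial.mul_coeff_zero, Polynomial.coeff_C_zero] at h2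
    rw [← h0]
    exact (mul_eq_zero.mp h2).resolve_right hu
  · intro h
    have h1 := rho_eq_zero T r h
    have h2 : Ideal.span ((X : σ → MvPolynomial σ k) '' (T : Set σ))
        ≤ Submodule.colon J ({f} : Set (MvPolynomial σ k)) := by
      rw [Ideal.span_le]
      rintro _ ⟨v, hv, rfl⟩
      change _ ∈ Submodule.colon J _
      rw [Submodule.mem_colon_singleton, smul_eq_mul]
      exact hT v hv
    have h3 := h2 h1
    rwa [Submodule.mem_colon_singleton, smul_eq_mul] at h3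

lemma embedded (J : Ideal (MvPolynomial σ k)) (f : MvPolynomial σ k) (T T' : Finset σ)
    (hcol : Submodule.colon J ({f} : Set (MvPolynomial σ k)) = RingHom.ker (rho k T).toRingHom)
    (hT' : J ≤ RingHom.ker (rho k T').toRingHom) (hsub : T' ⊆ T) (v : σ) (hv : v ∈ T)
    (hv' : v ∉ T') :
    ∃ P ∈ associatedPrimes (MvPolynomial σ k) (MvPolynomial σ k ⧸ J), P ∉ J.minimalPrimes := by
  refine ⟨RingHom.ker (rho k T).toRingHom, ?_, ?_⟩
  · rw [AssociatedPrimes.mem_iff, isAssociatedPrime_iff]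
    refine ⟨RingHom.ker_isPrime _, Ideal.Quotient.mk J f, ?_⟩
    rw [← hcol]
    ext r
    rw [Submodule.mem_colon_singleton, Submodule.mem_colon_singleton, Submodule.mem_bot]
    change _ ↔ Ideal.Quotient.mk J (r * f) = 0
    rw [Ideal.Quotient.eq_zero_iff_mem]
    rfl
  · intro hmin
    have hle : RingHom.ker (rho k T').toRingHom ≤ RingHom.ker (rho k T).toRingHom := by
      intro r hr
      have h1 := rho_eq_zero T' r hr
      have h2 : Ideal.span ((X : σ → MvPolynomial σ k) '' (T' : Set σ))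
          ≤ RingHom.ker (rho k T).toRingHom := by
        rw [Ideal.span_le]
        rintro _ ⟨w, hw, rfl⟩
        change rho k T (X w) = 0
        rw [rho, aeval_X, if_pos (hsub hw)]
      exact h2 h1
    have h3 := hmin.2 ⟨RingHom.ker_isPrime _, hT'⟩ hle
    have h4 : (X v : MvPolynomial σ k) ∈ RingHom.ker (rho k T).toRingHom := by
      change rho k T (X v) = 0
      rw [rho, aeval_X, if_pos hv]
    have h5 : rho k T' (X v) = 0 := h3 h4
    rw [rho, aeval_X, if_neg hv'] at h5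
    exact X_ne_zero v h5

end general

/-- the triangle -/
def tri : Set (Finset (Fin 3)) := {{0, 1}, {1, 2}, {0, 2}}

lemma tri_clutter : IsClutter tri := by
  constructor
  · rintro e (rfl | rfl | rfl)
    · exact ⟨0, by simp⟩
    · exact ⟨1, by simp⟩
    · exact ⟨0, by simp⟩
  · rintro e (rfl | rfl | rfl) f (rfl | rfl | rfl) h
    all_goals first | rfl | exact absurd h (by decide)

section tri

variable {k : Type*} [Field k]

lemma coeff_q (s : ℕ) (i : Fin 3) (a : Fin (s + 1)) :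
    (jetSubst k 3 s (X i)).coeff a = X (i, a) := by
  rw [jetSubst, aeval_X, Polynomial.finsetSum_coeff]
  simp only [Polynomial.coeff_C_mul, Polynomial.coeff_X_pow]
  rw [Finset.sum_eq_single a]
  · simp
  · intro b _ hb
    rw [if_neg, mul_zero]
    intro h
    exact hb (Fin.ext h.symm)
  · simp

lemma mem_pair (s : ℕ) (i l : Fin 3) (h : ({i, l} : Finset (Fin 3)) ∈ tri) (hil : i ≠ l)
    (j : ℕ) (hj : j ≤ s) :
    (∑ p ∈ Finset.HasAntidiagonal.antidiagonal j, (jetSubst k 3 s (X i)).coeff p.1 *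
      (jetSubst k 3 s (X l)).coeff p.2) ∈ jetIdeal (edgeIdeal k tri) s := by
  rw [← Polynomial.coeff_mul, ← map_mul]
  apply Ideal.subset_span
  refine ⟨X i * X l, ?_, j, hj, rfl⟩
  apply Ideal.subset_span
  exact ⟨{i, l}, h, by simp [Finset.prod_pair hil]⟩

/-- the jet ideal is contained in the kernel of a ring homomorphism as soon as the coefficients
of the three edges are killed -/
lemma jet_le_ker (s : ℕ) {B : Type*} [CommRing B] (ψ : MvPolynomial (Fin 3 × Fin (s + 1)) k →+* B)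
    (h : ∀ i l : Fin 3, (i = 0 ∧ l = 1) ∨ (i = 1 ∧ l = 2) ∨ (i = 0 ∧ l = 2) → ∀ j ≤ s,
      ψ (∑ p ∈ Finset.HasAntidiagonal.antidiagonal j, (jetSubst k 3 s (X i)).coeff p.1 *
        (jetSubst k 3 s (X l)).coeff p.2) = 0) :
    jetIdeal (edgeIdeal k tri) s ≤ RingHom.ker ψ := by
  unfold jetIdeal
  rw [Ideal.span_le]
  rintro _ ⟨f, hf, j, hj, rfl⟩
  -- ideal of good elements
  let Φ : MvPolynomial (Fin 3) k →+* Polynomial B :=
    (Polynomial.mapRingHom ψ).comp (jetSubst k 3 s).toRingHom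
  have h1 : edgeIdeal k tri ≤ Ideal.comap Φ (Ideal.span {Polynomial.X ^ (s + 1)}) := by
    unfold edgeIdeal
    rw [Ideal.span_le]
    have key : ∀ i l : Fin 3, i ≠ l →
        (i = 0 ∧ l = 1) ∨ (i = 1 ∧ l = 2) ∨ (i = 0 ∧ l = 2) →
        Φ (∏ a ∈ ({i, l} : Finset (Fin 3)), (X a : MvPolynomial (Fin 3) k))
          ∈ Ideal.span {(Polynomial.X : Polynomial B) ^ (s + 1)} := by
      intro i l hil hc
      rw [Ideal.mem_span_singleton, Polynomial.X_pow_dvd_iff]
      intro d hd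
      have := h i l hc d (by omega)
      rw [← Polynomial.coeff_mul, ← map_mul] at this
      rw [Finset.prod_pair hil]
      change ((jetSubst k 3 s (X i * X l)).map ψ).coeff d = 0
      rw [Polynomial.coeff_map]
      exact this
    rintro _ ⟨e, (rfl | rfl | rfl), rfl⟩
    · exact key 0 1 (by decide) (by simp)
    · exact key 1 2 (by decide) (by simp)
    · exact key 0 2 (by decide) (by simp)
  have h2 := h1 hf
  rw [Ideal.mem_comap, Ideal.mem_span_singleton, Polynomial.X_pow_dvd_iff] at h2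
  have h3 := h2 j (by omega)
  change ((jetSubst k 3 s f).map ψ).coeff j = 0 at h3
  rw [Polynomial.coeff_map] at h3
  exact h3

lemma comap_eq_ker {A B : Type*} [CommRing A] [CommRing B] (ψ : A →+* B) (I : Ideal B) :
    Ideal.comap ψ I = RingHom.ker ((Ideal.Quotient.mk I).comp ψ) := by
  ext r
  rw [Ideal.mem_comap, RingHom.mem_ker, RingHom.comp_apply, Ideal.Quotient.eq_zero_iff_mem]

lemma jet_le_comap (s : ℕ) {B : Type*} [CommRing B]
    (ψ : MvPolynomial (Fin 3 × Fin (s + 1)) k →+* Polynomial B) (m : ℕ)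
    (h : ∀ i l : Fin 3, (i = 0 ∧ l = 1) ∨ (i = 1 ∧ l = 2) ∨ (i = 0 ∧ l = 2) → ∀ j ≤ s,
      Polynomial.X ^ m ∣
      ψ (∑ p ∈ Finset.HasAntidiagonal.antidiagonal j, (jetSubst k 3 s (X i)).coeff p.1 *
        (jetSubst k 3 s (X l)).coeff p.2)) :
    jetIdeal (edgeIdeal k tri) s ≤ Ideal.comap ψ (Ideal.span {Polynomial.X ^ m}) := by
  rw [comap_eq_ker]
  apply jet_le_ker
  intro i l hil j hj
  rw [RingHom.comp_apply, Ideal.Quotient.eq_zero_iff_mem, Ideal.mem_span_singleton]
  exact h i l hil j hj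

/-! ### the case `s = 1` -/

lemma q10 (i : Fin 3) : (jetSubst k 3 1 (X i)).coeff 0 = X (i, 0) := coeff_q 1 i 0
lemma q11 (i : Fin 3) : (jetSubst k 3 1 (X i)).coeff 1 = X (i, 1) := coeff_q 1 i 1

lemma s1_mem0 (i l : Fin 3) (h : ({i, l} : Finset (Fin 3)) ∈ tri) (hil : i ≠ l) :
    (X (i, 0) * X (l, 0) : MvPolynomial (Fin 3 × Fin 2) k) ∈ jetIdeal (edgeIdeal k tri) 1 := by
  have := mem_pair (k := k) 1 i l h hil 0 (by norm_num)
  simpa [q10] using this

lemma s1_mem1 (i l : Fin 3) (h : ({i, l} : Finset (Fin 3)) ∈ tri) (hil : i ≠ l) :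
    (X (i, 0) * X (l, 1) + X (i, 1) * X (l, 0) : MvPolynomial (Fin 3 × Fin 2) k)
      ∈ jetIdeal (edgeIdeal k tri) 1 := by
  have := mem_pair (k := k) 1 i l h hil 1 le_rfl
  simpa [q10, q11, Finset.Nat.antidiagonal_succ] using this

lemma tri01 : ({0, 1} : Finset (Fin 3)) ∈ tri := Or.inl rfl
lemma tri12 : ({1, 2} : Finset (Fin 3)) ∈ tri := Or.inr (Or.inl rfl)
lemma tri02 : ({0, 2} : Finset (Fin 3)) ∈ tri := Or.inr (Or.inr rfl)

/-- the specialisation for `s = 1` -/
noncomputable def psi1 (k : Type*) [Field k] :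
    MvPolynomial (Fin 3 × Fin 2) k →+* Polynomial (MvPolynomial (Fin 3 × Fin 2) k) :=
  eval₂Hom (Polynomial.C.comp C) (fun v =>
    if v = (0, 0) then Polynomial.C (X (0, 1)) * Polynomial.X
    else if v = (0, 1) then Polynomial.C (X (0, 1))
    else if v = (1, 0) then - (Polynomial.C (X (1, 1)) * Polynomial.X)
    else if v = (1, 1) then Polynomial.C (X (1, 1))
    else 0)

lemma case_one (h2 : (2 : k) ≠ 0) :
    ∃ P ∈ associatedPrimes (MvPolynomial (Fin 3 × Fin 2) k)
      (MvPolynomial (Fin 3 × Fin 2) k ⧸ jetIdeal (edgeIdeal k tri) 1),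
      P ∉ (jetIdeal (edgeIdeal k tri) 1).minimalPrimes := by
  set J := jetIdeal (edgeIdeal k tri) 1 with hJ
  have B0 := s1_mem0 (k := k) 0 1 tri01 (by decide)
  have B1 := s1_mem1 (k := k) 0 1 tri01 (by decide)
  have A0 := s1_mem0 (k := k) 0 2 tri02 (by decide)
  have A1 := s1_mem1 (k := k) 0 2 tri02 (by decide)
  have C1 := s1_mem1 (k := k) 1 2 tri12 (by decide)
  rw [← hJ] at B0 B1 A0 A1 C1
  apply embedded J (X (0, 0) * X (1, 1)) {(0, 0), (1, 0), (2, 0), (2, 1)} {(0, 0), (1, 0), (2, 0)}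
    (colon_eq J _ _ ?_ 1 (psi1 k) ?_ (X (0, 1) * X (1, 1)) ?_ ?_ ?_) ?_ ?_ (2, 1) (by simp) (by simp)
  · intro v hv
    simp only [Finset.mem_insert, Finset.mem_singleton] at hv
    rcases hv with rfl | rfl | rfl | rfl
    · have : (X (0, 0) * (X (0, 0) * X (1, 1)) : MvPolynomial (Fin 3 × Fin 2) k)
          = X (0, 0) * (X (0, 0) * X (1, 1) + X (0, 1) * X (1, 0))
            - X (0, 1) * (X (0, 0) * X (1, 0)) := by ring
      rw [this]
      exact J.sub_mem (J.mul_mem_left _ B1) (J.mul_mem_left _ B0)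
    · have : (X (1, 0) * (X (0, 0) * X (1, 1)) : MvPolynomial (Fin 3 × Fin 2) k)
          = X (1, 1) * (X (0, 0) * X (1, 0)) := by ring
      rw [this]
      exact J.mul_mem_left _ B0
    · have : (X (2, 0) * (X (0, 0) * X (1, 1)) : MvPolynomial (Fin 3 × Fin 2) k)
          = X (1, 1) * (X (0, 0) * X (2, 0)) := by ring
      rw [this]
      exact J.mul_mem_left _ A0
    · have h3 : (C 2 * (X (2, 1) * (X (0, 0) * X (1, 1))) : MvPolynomial (Fin 3 × Fin 2) k)
          = X (2, 1) * (X (0, 0) * X (1, 1) + X (0, 1) * X (1, 0))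
            - X (0, 1) * (X (1, 0) * X (2, 1) + X (1, 1) * X (2, 0))
            + X (1, 1) * (X (0, 0) * X (2, 1) + X (0, 1) * X (2, 0)) := by
        rw [show (C 2 : MvPolynomial (Fin 3 × Fin 2) k) = 2 from map_ofNat C 2]
        ring
      have h4 : (C 2 * (X (2, 1) * (X (0, 0) * X (1, 1))) : MvPolynomial (Fin 3 × Fin 2) k) ∈ J := by
        rw [h3]
        exact J.add_mem (J.sub_mem (J.mul_mem_left _ B1) (J.mul_mem_left _ C1))
          (J.mul_mem_left _ A1)
      have h5 : (X (2, 1) * (X (0, 0) * X (1, 1)) : MvPolynomial (Fin 3 × Fin 2) k)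
          = C (2⁻¹) * (C 2 * (X (2, 1) * (X (0, 0) * X (1, 1)))) := by
        rw [← mul_assoc (C _), ← C_mul, inv_mul_cancel₀ h2, C_1, one_mul]
      rw [h5]
      exact J.mul_mem_left _ h4
  · refine jet_le_comap (k := k) 1 (psi1 k) 2 ?_
    intro i l hil j hj
    rcases hil with ⟨rfl, rfl⟩ | ⟨rfl, rfl⟩ | ⟨rfl, rfl⟩ <;> interval_cases j
    · refine ⟨-(Polynomial.C (X (0, 1)) * Polynomial.C (X (1, 1))), ?_⟩
      simp [q10, psi1]
      ring
    · refine ⟨0, ?_⟩
      simp [q10, q11, psi1, Finset.Nat.antidiagonal_succ]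
      ring
    · refine ⟨0, ?_⟩
      simp [q10, psi1]
    · refine ⟨0, ?_⟩
      simp [q10, q11, psi1, Finset.Nat.antidiagonal_succ]
    · refine ⟨0, ?_⟩
      simp [q10, psi1]
    · refine ⟨0, ?_⟩
      simp [q10, q11, psi1, Finset.Nat.antidiagonal_succ]
  · exact mul_ne_zero (X_ne_zero _) (X_ne_zero _)
  · simp [psi1]
    ring
  · intro r
    have : (Polynomial.constantCoeff.comp (psi1 k)) =
        (rho k ({(0, 0), (1, 0), (2, 0), (2, 1)} : Finset (Fin 3 × Fin 2))).toRingHom := by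
      apply ringHom_ext
      · intro c
        simp [psi1, rho]
      · intro v
        fin_cases v <;> simp [psi1, rho]
    exact congrFun (congrArg DFunLike.coe this) r
  · refine jet_le_ker (k := k) 1
      (rho k ({(0, 0), (1, 0), (2, 0)} : Finset (Fin 3 × Fin 2))).toRingHom ?_
    intro i l hil j hj
    rcases hil with ⟨rfl, rfl⟩ | ⟨rfl, rfl⟩ | ⟨rfl, rfl⟩ <;> interval_cases j <;>
      simp [q10, q11, rho, Finset.Nat.antidiagonal_succ]
  · intro v hv
    simp only [Finset.mem_insert, Finset.mem_singleton] at hv ⊢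
    tauto

/-! ### the case `s = 2` -/

lemma q20 (i : Fin 3) : (jetSubst k 3 2 (X i)).coeff 0 = X (i, 0) := coeff_q 2 i 0
lemma q21 (i : Fin 3) : (jetSubst k 3 2 (X i)).coeff 1 = X (i, 1) := coeff_q 2 i 1
lemma q22 (i : Fin 3) : (jetSubst k 3 2 (X i)).coeff 2 = X (i, 2) := coeff_q 2 i 2

lemma s2_mem0 (i l : Fin 3) (h : ({i, l} : Finset (Fin 3)) ∈ tri) (hil : i ≠ l) :
    (X (i, 0) * X (l, 0) : MvPolynomial (Fin 3 × Fin 3) k) ∈ jetIdeal (edgeIdeal k tri) 2 := by
  have := mem_pair (k := k) 2 i l h hil 0 (by norm_num)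
  simpa [q20] using this

lemma s2_mem1 (i l : Fin 3) (h : ({i, l} : Finset (Fin 3)) ∈ tri) (hil : i ≠ l) :
    (X (i, 0) * X (l, 1) + X (i, 1) * X (l, 0) : MvPolynomial (Fin 3 × Fin 3) k)
      ∈ jetIdeal (edgeIdeal k tri) 2 := by
  have := mem_pair (k := k) 2 i l h hil 1 (by norm_num)
  simpa [q20, q21, Finset.Nat.antidiagonal_succ] using this

lemma s2_mem2 (i l : Fin 3) (h : ({i, l} : Finset (Fin 3)) ∈ tri) (hil : i ≠ l) :
    (X (i, 0) * X (l, 2) + X (i, 1) * X (l, 1) + X (i, 2) * X (l, 0) :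
      MvPolynomial (Fin 3 × Fin 3) k) ∈ jetIdeal (edgeIdeal k tri) 2 := by
  have := mem_pair (k := k) 2 i l h hil 2 le_rfl
  simp only [Finset.Nat.antidiagonal_succ, Finset.Nat.antidiagonal_zero, Finset.map_singleton,
    Finset.map_cons, Finset.sum_cons, Finset.sum_singleton] at this
  simpa [q20, q21, q22, add_assoc] using this

/-- the image of `c_1` under `psi2` -/
noncomputable def img21 (k : Type*) [Field k] : Polynomial (MvPolynomial (Fin 3 × Fin 3) k) :=
  Neg.neg (Polynomial.C (X (0, 1) * X (2, 2) : MvPolynomial (Fin 3 × Fin 3) k) * Polynomial.X)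
    - Polynomial.C (X (0, 1) * X (0, 2) * X (2, 2) : MvPolynomial (Fin 3 × Fin 3) k)
      * Polynomial.X ^ 2

/-- the specialisation for `s = 2` -/
noncomputable def psi2 (k : Type*) [Field k] :
    MvPolynomial (Fin 3 × Fin 3) k →+* Polynomial (MvPolynomial (Fin 3 × Fin 3) k) :=
  eval₂Hom (Polynomial.C.comp C) (fun v =>
    if v = (0, 0) then Polynomial.C (X (0, 1) ^ 2) * Polynomial.X
    else if v = (0, 1) then Polynomial.C (X (0, 1))
    else if v = (0, 2) then Polynomial.C (X (0, 2))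
    else if v = (2, 0) then Polynomial.C (X (0, 1) ^ 2 * X (2, 2)) * Polynomial.X ^ 2
    else if v = (2, 1) then img21 k
    else if v = (2, 2) then Polynomial.C (X (2, 2))
    else 0)

lemma case_two (h3 : (3 : k) ≠ 0) :
    ∃ P ∈ associatedPrimes (MvPolynomial (Fin 3 × Fin 3) k)
      (MvPolynomial (Fin 3 × Fin 3) k ⧸ jetIdeal (edgeIdeal k tri) 2),
      P ∉ (jetIdeal (edgeIdeal k tri) 2).minimalPrimes := by
  set J := jetIdeal (edgeIdeal k tri) 2 with hJ
  have B0 := s2_mem0 (k := k) 0 1 tri01 (by decide)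
  have B1 := s2_mem1 (k := k) 0 1 tri01 (by decide)
  have B2 := s2_mem2 (k := k) 0 1 tri01 (by decide)
  have A0 := s2_mem0 (k := k) 0 2 tri02 (by decide)
  have A1 := s2_mem1 (k := k) 0 2 tri02 (by decide)
  have A2 := s2_mem2 (k := k) 0 2 tri02 (by decide)
  have C0 := s2_mem0 (k := k) 1 2 tri12 (by decide)
  have C1 := s2_mem1 (k := k) 1 2 tri12 (by decide)
  have C2 := s2_mem2 (k := k) 1 2 tri12 (by decide)
  rw [← hJ] at B0 B1 B2 A0 A1 A2 C0 C1 C2
  apply embedded J (X (0, 0) ^ 2 * X (2, 2)) {(0, 0), (1, 0), (1, 1), (1, 2), (2, 0), (2, 1)}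
    {(0, 0), (1, 0), (1, 1), (2, 0), (2, 1)}
    (colon_eq J _ _ ?_ 2 (psi2 k) ?_ (X (0, 1) ^ 4 * X (2, 2)) ?_ ?_ ?_) ?_ ?_ (1, 2) (by simp)
    (by simp)
  · intro v hv
    simp only [Finset.mem_insert, Finset.mem_singleton] at hv
    rcases hv with rfl | rfl | rfl | rfl | rfl | rfl
    · have : (X (0, 0) * (X (0, 0) ^ 2 * X (2, 2)) : MvPolynomial (Fin 3 × Fin 3) k)
          = X (0, 0) ^ 2 * (X (0, 0) * X (2, 2) + X (0, 1) * X (2, 1) + X (0, 2) * X (2, 0))
            - (X (0, 0) * X (0, 1)) * (X (0, 0) * X (2, 1) + X (0, 1) * X (2, 0))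
            + (X (0, 1) ^ 2 - X (0, 0) * X (0, 2)) * (X (0, 0) * X (2, 0)) := by ring
      rw [this]
      exact J.add_mem (J.sub_mem (J.mul_mem_left _ A2) (J.mul_mem_left _ A1))
        (J.mul_mem_left _ A0)
    · have : (X (1, 0) * (X (0, 0) ^ 2 * X (2, 2)) : MvPolynomial (Fin 3 × Fin 3) k)
          = (X (0, 0) * X (2, 2)) * (X (0, 0) * X (1, 0)) := by ring
      rw [this]
      exact J.mul_mem_left _ B0
    · have : (X (1, 1) * (X (0, 0) ^ 2 * X (2, 2)) : MvPolynomial (Fin 3 × Fin 3) k)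
          = (X (0, 0) * X (2, 2)) * (X (0, 0) * X (1, 1) + X (0, 1) * X (1, 0))
            - (X (0, 1) * X (2, 2)) * (X (0, 0) * X (1, 0)) := by ring
      rw [this]
      exact J.sub_mem (J.mul_mem_left _ B1) (J.mul_mem_left _ B0)
    · have h4 : (C 3 * (X (1, 2) * (X (0, 0) ^ 2 * X (2, 2))) : MvPolynomial (Fin 3 × Fin 3) k)
          = X (0, 1) ^ 2 * (X (1, 0) * X (2, 2) + X (1, 1) * X (2, 1) + X (1, 2) * X (2, 0))
            + (2 * X (0, 0) * X (2, 2)) *
              (X (0, 0) * X (1, 2) + X (0, 1) * X (1, 1) + X (0, 2) * X (1, 0))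
            + (- (2 * X (0, 2) * X (2, 2)) + X (0, 2) * X (2, 2)) * (X (0, 0) * X (1, 0))
            + (- (X (0, 1) * X (2, 2))) * (X (0, 0) * X (1, 1) + X (0, 1) * X (1, 0))
            + (X (0, 0) * X (1, 2) - X (0, 1) * X (1, 1) - X (0, 2) * X (1, 0)) *
              (X (0, 0) * X (2, 2) + X (0, 1) * X (2, 1) + X (0, 2) * X (2, 0))
            + (- (X (0, 2) * X (1, 2))) * (X (0, 0) * X (2, 0))
            + (- (X (0, 1) * X (1, 2))) * (X (0, 0) * X (2, 1) + X (0, 1) * X (2, 0))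
            + (X (0, 1) * X (0, 2)) * (X (1, 0) * X (2, 1) + X (1, 1) * X (2, 0))
            + (X (0, 2) ^ 2) * (X (1, 0) * X (2, 0)) := by
        rw [show (C 3 : MvPolynomial (Fin 3 × Fin 3) k) = 3 from map_ofNat C 3]
        ring
      have h5 : (C 3 * (X (1, 2) * (X (0, 0) ^ 2 * X (2, 2))) :
          MvPolynomial (Fin 3 × Fin 3) k) ∈ J := by
        rw [h4]
        exact J.add_mem (J.add_mem (J.add_mem (J.add_mem (J.add_mem (J.add_mem (J.add_mem
          (J.add_mem (J.mul_mem_left _ C2) (J.mul_mem_left _ B2)) (J.mul_mem_left _ B0))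
          (J.mul_mem_left _ B1)) (J.mul_mem_left _ A2)) (J.mul_mem_left _ A0))
          (J.mul_mem_left _ A1)) (J.mul_mem_left _ C1)) (J.mul_mem_left _ C0)
      have h6 : (X (1, 2) * (X (0, 0) ^ 2 * X (2, 2)) : MvPolynomial (Fin 3 × Fin 3) k)
          = C (3⁻¹) * (C 3 * (X (1, 2) * (X (0, 0) ^ 2 * X (2, 2)))) := by
        rw [← mul_assoc (C _), ← C_mul, inv_mul_cancel₀ h3, C_1, one_mul]
      rw [h6]
      exact J.mul_mem_left _ h5
    · have : (X (2, 0) * (X (0, 0) ^ 2 * X (2, 2)) : MvPolynomial (Fin 3 × Fin 3) k)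
          = (X (0, 0) * X (2, 2)) * (X (0, 0) * X (2, 0)) := by ring
      rw [this]
      exact J.mul_mem_left _ A0
    · have : (X (2, 1) * (X (0, 0) ^ 2 * X (2, 2)) : MvPolynomial (Fin 3 × Fin 3) k)
          = (X (0, 0) * X (2, 2)) * (X (0, 0) * X (2, 1) + X (0, 1) * X (2, 0))
            - (X (0, 1) * X (2, 2)) * (X (0, 0) * X (2, 0)) := by ring
      rw [this]
      exact J.sub_mem (J.mul_mem_left _ A1) (J.mul_mem_left _ A0)
  · refine jet_le_comap (k := k) 2 (psi2 k) 3 ?_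
    intro i l hil j hj
    rcases hil with ⟨rfl, rfl⟩ | ⟨rfl, rfl⟩ | ⟨rfl, rfl⟩ <;> interval_cases j
    · refine ⟨0, ?_⟩
      simp [q20, psi2]
    · refine ⟨0, ?_⟩
      simp [q20, q21, psi2, img21, Finset.Nat.antidiagonal_succ]
    · refine ⟨0, ?_⟩
      simp [q20, q21, q22, psi2, img21, Finset.Nat.antidiagonal_succ]
    · refine ⟨0, ?_⟩
      simp [q20, psi2]
    · refine ⟨0, ?_⟩
      simp [q20, q21, psi2, img21, Finset.Nat.antidiagonal_succ]
    · refine ⟨0, ?_⟩
      simp [q20, q21, q22, psi2, img21, Finset.Nat.antidiagonal_succ]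
    · refine ⟨Polynomial.C (X (0, 1)) ^ 4 * Polynomial.C (X (2, 2)), ?_⟩
      simp [q20, psi2]
      ring
    · refine ⟨- (Polynomial.C (X (0, 1)) ^ 3 * Polynomial.C (X (0, 2)) *
        Polynomial.C (X (2, 2))), ?_⟩
      simp [q20, q21, psi2, img21, Finset.Nat.antidiagonal_succ]
      ring
    · refine ⟨0, ?_⟩
      simp [q20, q21, q22, psi2, img21, Finset.Nat.antidiagonal_succ]
      ring
  · exact mul_ne_zero (pow_ne_zero _ (X_ne_zero _)) (X_ne_zero _)
  · simp [psi2]
    ring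
  · intro r
    have : (Polynomial.constantCoeff.comp (psi2 k)) =
        (rho k ({(0, 0), (1, 0), (1, 1), (1, 2), (2, 0), (2, 1)} :
          Finset (Fin 3 × Fin 3))).toRingHom := by
      apply ringHom_ext
      · intro c
        simp [psi2, img21, rho]
      · intro v
        fin_cases v <;> simp [psi2, img21, rho]
    exact congrFun (congrArg DFunLike.coe this) r
  · refine jet_le_ker (k := k) 2
      (rho k ({(0, 0), (1, 0), (1, 1), (2, 0), (2, 1)} : Finset (Fin 3 × Fin 3))).toRingHom ?_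
    intro i l hil j hj
    rcases hil with ⟨rfl, rfl⟩ | ⟨rfl, rfl⟩ | ⟨rfl, rfl⟩ <;> interval_cases j <;>
      simp [q20, q21, q22, rho, Finset.Nat.antidiagonal_succ]
  · intro v hv
    simp only [Finset.mem_insert, Finset.mem_singleton] at hv ⊢
    tauto

end tri

/-- For every field `k` there are a clutter `C` (the triangle) and `s` (`s = 1` if the
characteristic is not `2`, otherwise `s = 2`) such that the jet ideal `J_s(I(C))` has an associated
prime that is not minimal. -/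
theorem result (k : Type*) [Field k] :
    ∃ (n : ℕ) (C : Set (Finset (Fin n))) (s : ℕ), IsClutter C ∧
      ∃ P ∈ associatedPrimes (MvPolynomial (Fin n × Fin (s + 1)) k)
        (MvPolynomial (Fin n × Fin (s + 1)) k ⧸ jetIdeal (edgeIdeal k C) s),
        P ∉ (jetIdeal (edgeIdeal k C) s).minimalPrimes := by
  by_cases h2 : (2 : k) = 0
  · refine ⟨3, tri, 2, tri_clutter, case_two ?_⟩
    intro h3
    have : (1 : k) = 3 - 2 := by norm_num
    rw [h2, h3, sub_zero] at this
    exact one_ne_zero this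
  · exact ⟨3, tri, 1, tri_clutter, case_one h2⟩

end Pool.Agent.Results.MP_dc74b6_ag.TriangleEmbedded
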